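import Pool.Agent.Run7.h62.RV.Iface

/-! Piece GP of helper62's project MP_620441_co (general position of finite sets and of
configurations). -/

namespace Pool.Agent.Run7.h62.RV

open Finset Filter Topology

namespace GPP

open scoped Classical

theorem finrank_VS (d : ℕ) : Module.finrank ℝ (VS d) = d + 1 := by
  simp [VS, Pt, add_comm]

/-- `d+1` vectors are independent iff no nonzero functional vanishes on them. -/
theorem li_of_dual {s d : ℕ} (v : Fin s → VS d) (A : Finset (Fin s)) (hA : A.card = d + 1)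
    (h : ∀ f : VS d →ₗ[ℝ] ℝ, (∀ i ∈ A, f (v i) = 0) → f = 0) :
    LinearIndependent ℝ (fun i : A => v i) := by
  apply linearIndependent_of_top_le_span_of_card_eq_finrank
  · by_contra hne
    have hlt : Submodule.span ℝ (Set.range (fun i : A => v i)) < ⊤ := by
      rw [lt_top_iff_ne_top]
      intro he
      exact hne (by rw [he])
    obtain ⟨f, hf0, hf⟩ := Submodule.exists_le_ker_of_lt_top _ hlt
    apply hf0
    apply h f
    intro i hi
    have : v i ∈ Submodule.span ℝ (Set.range (fun i : A => v i)) :=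
      Submodule.subset_span ⟨⟨i, hi⟩, rfl⟩
    exact hf this
  · rw [finrank_VS, Fintype.card_coe, hA]

theorem dual_of_li {s d : ℕ} (v : Fin s → VS d) (A : Finset (Fin s)) (hA : A.card = d + 1)
    (h : LinearIndependent ℝ (fun i : A => v i)) (f : VS d →ₗ[ℝ] ℝ)
    (hf : ∀ i ∈ A, f (v i) = 0) : f = 0 := by
  have hs : Submodule.span ℝ (Set.range (fun i : A => v i)) = ⊤ := by
    apply h.span_eq_top_of_card_eq_finrank'
    rw [finrank_VS, Fintype.card_coe, hA]
  apply LinearMap.ext_on_range hs
  rintro ⟨i, hi⟩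
  simpa using hf i hi

theorem li_mono {s d : ℕ} (v : Fin s → VS d) (A B : Finset (Fin s)) (hAB : A ⊆ B)
    (h : LinearIndependent ℝ (fun i : B => v i)) : LinearIndependent ℝ (fun i : A => v i) := by
  have := h.comp (fun i : A => (⟨i.1, hAB i.2⟩ : B)) (by
    intro x y hxy
    apply Subtype.ext
    simpa using congrArg (fun z : B => z.1) hxy)
  exact this

/-- A functional on `VS d`. -/
theorem repr (d : ℕ) (f : VS d →ₗ[ℝ] ℝ) : ∃ (c : ℝ) (a : Pt d), ∀ (t : ℝ) (x : Pt d),
    f (t, x) = c * t + inner ℝ a x := by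
  refine ⟨f (1, 0), (InnerProductSpace.toDual ℝ (Pt d)).symm
    (LinearMap.toContinuousLinearMap (f ∘ₗ LinearMap.inr ℝ ℝ (Pt d))), fun t x => ?_⟩
  rw [InnerProductSpace.toDual_symm_apply]
  have h1 : ((t, x) : VS d) = t • ((1, 0) : VS d) + ((0, x) : VS d) := by
    ext <;> simp
  rw [h1, map_add, map_smul]
  simp [mul_comm]

theorem part1 (s d : ℕ) (hd : 1 ≤ d) (hs : d + 2 ≤ s) (S : Finset (Pt d)) (hS : S.card = s)
    (hG : GeneralPosition S) : ∃ p : Fin s → Pt d, univ.image p = S ∧ Gen (lift p) := by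
  let e : S ≃ Fin s := S.equivFinOfCardEq hS
  let p : Fin s → Pt d := fun i => (e.symm i : Pt d)
  have hpi : Function.Injective p := by
    intro i j hij
    have : e.symm i = e.symm j := Subtype.ext hij
    exact e.symm.injective this
  have hpS : ∀ i, p i ∈ S := fun i => (e.symm i).2
  refine ⟨p, ?_, ?_⟩
  · ext x
    simp only [mem_image, mem_univ, true_and]
    constructor
    · rintro ⟨i, rfl⟩
      exact hpS i
    · intro hx
      exact ⟨e ⟨x, hx⟩, by simp [p]⟩
  · intro A hA
    obtain ⟨B, hAB, hB⟩ := Finset.exists_superset_card_eq hA (by simp; omega : d + 1 ≤ Fintype.card (Fin s))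
    apply li_mono _ A B hAB
    apply li_of_dual _ B hB
    intro f hf
    obtain ⟨c, a, hca⟩ := repr d f
    by_cases ha : a = 0
    · have hne : B.Nonempty := by
        rw [← Finset.card_pos]; omega
      obtain ⟨i, hi⟩ := hne
      have h1 := hf i hi
      simp only [lift, hca, ha, inner_zero_left, mul_one, add_zero] at h1
      apply LinearMap.ext
      rintro ⟨t, x⟩
      rw [hca, ha, h1]
      simp
    · exfalso
      refine hG (B.image p) ?_ ?_ a (-c) ha ?_
      · intro x hx
        obtain ⟨i, -, rfl⟩ := Finset.mem_image.mp hx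
        exact hpS i
      · rw [Finset.card_image_of_injective _ hpi, hB]
      · intro x hx
        obtain ⟨i, hi, rfl⟩ := Finset.mem_image.mp hx
        have h1 := hf i hi
        simp only [lift, hca, mul_one] at h1
        linarith

theorem part2 (s d : ℕ) (_hd : 1 ≤ d) (_hs : d + 2 ≤ s) (p : Fin s → Pt d) (hG : Gen (lift p)) :
    (univ.image p : Finset (Pt d)).card = s ∧ GeneralPosition (univ.image p : Finset (Pt d)) := by
  have hpi : Function.Injective p := by
    intro i j hij
    by_contra hne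
    have hc : ({i, j} : Finset (Fin s)).card ≤ d + 1 := by
      have := Finset.card_le_two (a := i) (b := j)
      omega
    have h1 := (hG {i, j} hc).injective
    have h2 : (⟨i, by simp⟩ : ({i, j} : Finset (Fin s))) = ⟨j, by simp⟩ := by
      apply h1
      simp [lift, hij]
    exact hne (by simpa using congrArg (fun z : ({i, j} : Finset (Fin s)) => z.1) h2)
  refine ⟨by rw [Finset.card_image_of_injective _ hpi]; simp, ?_⟩
  intro T hT hTc a b ha hab
  have hA : (univ.filter (fun i => p i ∈ T)).card = d + 1 := by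
    rw [← hTc, ← Finset.card_image_of_injective _ hpi]
    congr 1
    ext x
    simp only [mem_image, mem_filter, mem_univ, true_and]
    constructor
    · rintro ⟨i, hi, rfl⟩
      exact hi
    · intro hx
      obtain ⟨i, -, rfl⟩ := Finset.mem_image.mp (hT hx)
      exact ⟨i, hx, rfl⟩
  let f : VS d →ₗ[ℝ] ℝ := ((innerSL ℝ a : Pt d →L[ℝ] ℝ) : Pt d →ₗ[ℝ] ℝ) ∘ₗ LinearMap.snd ℝ ℝ (Pt d)
    - b • LinearMap.fst ℝ ℝ (Pt d)
  have hfe : ∀ (t : ℝ) (x : Pt d), f (t, x) = inner ℝ a x - b * t := by
    intro t x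
    simp [f]
  have hf0 : f = 0 := by
    apply dual_of_li (lift p) _ hA (hG _ (le_of_eq hA))
    intro i hi
    rw [mem_filter] at hi
    simp only [lift, hfe, mul_one]
    rw [hab _ hi.2, sub_self]
  have h1 : f (0, a) = 0 := by rw [hf0]; rfl
  rw [hfe, mul_zero, sub_zero, inner_self_eq_zero] at h1
  exact ha h1

end GPP

theorem p_GP : S_GP := fun s d hd hs =>
  ⟨fun S hS hG => GPP.part1 s d hd hs S hS hG, fun p hG => GPP.part2 s d hd hs p hG⟩

end Pool.Agent.Run7.h62.RV
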