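import Pool.Agent.Run7.h62.RV.Iface

/-! Piece MOM of helper62's project MP_620441_co (the moment curve). -/

namespace Pool.Agent.Run7.h62.RV

open Finset Filter Topology Polynomial

namespace MOMP

open scoped Classical

/-- The functional of a polynomial. -/
noncomputable def F (d : ℕ) (q : ℝ[X]) : VS d →ₗ[ℝ] ℝ :=
  q.coeff 0 • LinearMap.fst ℝ ℝ (Pt d) +
    ∑ k : Fin d, q.coeff ((k : ℕ) + 1) •
      ((EuclideanSpace.proj k : Pt d →L[ℝ] ℝ) : Pt d →ₗ[ℝ] ℝ) ∘ₗ LinearMap.snd ℝ ℝ (Pt d)

theorem F_apply (d : ℕ) (q : ℝ[X]) (t : ℝ) (x : Pt d) :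
    F d q (t, x) = q.coeff 0 * t + ∑ k : Fin d, q.coeff ((k : ℕ) + 1) * x k := by
  simp [F, LinearMap.sum_apply]

theorem F_mom (s d : ℕ) (q : ℝ[X]) (hq : q.natDegree ≤ d) (i : Fin s) :
    F d q (lift (mom s d) i) = q.eval ((i : ℕ) : ℝ) := by
  rw [lift, F_apply, Polynomial.eval_eq_sum_range' (lt_of_le_of_lt hq (Nat.lt_succ_self d)),
    Finset.sum_range_succ', ← Fin.sum_univ_eq_sum_range (fun k => q.coeff (k + 1) * ((i : ℕ) : ℝ) ^ (k + 1)) d]
  simp only [mom, mul_one, pow_zero]
  rw [add_comm]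

/-- The polynomial of a functional. -/
theorem exists_poly (s d : ℕ) (f : VS d →ₗ[ℝ] ℝ) : ∃ q : ℝ[X], q.natDegree ≤ d ∧
    ∀ i : Fin s, f (lift (mom s d) i) = q.eval ((i : ℕ) : ℝ) := by
  refine ⟨C (f (1, 0)) + ∑ k : Fin d, C (f (0, EuclideanSpace.single k 1)) * X ^ ((k : ℕ) + 1),
    ?_, ?_⟩
  · refine (natDegree_add_le _ _).trans (max_le (by simp) ?_)
    refine natDegree_sum_le_of_forall_le _ _ ?_
    intro k _
    refine (natDegree_C_mul_X_pow_le _ _).trans ?_
    have := k.2
    omega
  · intro i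
    have h1 : lift (mom s d) i = ((1, 0) : VS d) +
        ∑ k : Fin d, (mom s d i k) • ((0, EuclideanSpace.single k 1) : VS d) := by
      refine Prod.ext ?_ ?_
      · simp [lift, Prod.fst_sum]
      · simp only [lift, Prod.snd_add, Prod.snd_sum, Prod.smul_snd, zero_add]
        ext j
        simp [Finset.sum_apply, Pi.single_apply]
    rw [h1, map_add, map_sum]
    simp only [map_smul, eval_add, eval_C, eval_finsetSum, eval_mul, eval_pow, eval_X, smul_eq_mul]
    congr 1
    apply Finset.sum_congr rfl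
    intro k _
    simp [mom, mul_comm]

theorem gen_mom (s d : ℕ) : Gen (lift (mom s d)) := by
  intro A hA
  rw [Fintype.linearIndependent_iff]
  intro g hg i
  let q : ℝ[X] := ∏ j ∈ A.erase i.1, (X - C (((j : Fin s) : ℕ) : ℝ))
  have hq : q.natDegree ≤ d := by
    have h1 : q.natDegree = (A.erase i.1).card := by
      rw [natDegree_finsetProd_X_sub_C_eq_card]
    rw [h1, Finset.card_erase_of_mem i.2]
    omega
  have h2 := congrArg (F d q) hg
  rw [map_sum, map_zero] at h2
  simp only [map_smul, F_mom s d q hq, smul_eq_mul] at h2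
  rw [Finset.sum_eq_single i] at h2
  · rcases mul_eq_zero.mp h2 with h | h
    · exact h
    · exfalso
      simp only [q, eval_prod, eval_sub, eval_X, eval_C, Finset.prod_eq_zero_iff] at h
      obtain ⟨j, hj, hj0⟩ := h
      rw [Finset.mem_erase] at hj
      apply hj.1
      have : (((i.1 : Fin s) : ℕ) : ℝ) = ((j : ℕ) : ℝ) := by linarith
      exact (Fin.ext (by exact_mod_cast this)).symm
  · intro b _ hb
    have : q.eval (((b.1 : Fin s) : ℕ) : ℝ) = 0 := by
      simp only [q, eval_prod, eval_sub, eval_X, eval_C]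
      apply Finset.prod_eq_zero (i := b.1)
      · rw [Finset.mem_erase]
        exact ⟨fun h => hb (Subtype.ext h), b.2⟩
      · simp
    rw [this, mul_zero]
  · intro h
    exact absurd (Finset.mem_univ i) h

/-- Sign changes of a polynomial. -/
theorem roots_lemma {n d : ℕ} (q : ℝ[X]) (hq : q.natDegree ≤ d) (hq0 : q ≠ 0)
    (t : Fin (n + 1) → ℝ) (ht : StrictMono t) (D : Finset (Fin n))
    (hD : ∀ c ∈ D, q.eval (t c.castSucc) * q.eval (t c.succ) < 0) : D.card ≤ d := by
  have hr : ∀ c ∈ D, ∃ r : ℝ, t c.castSucc < r ∧ r < t c.succ ∧ q.eval r = 0 := by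
    intro c hc
    have hlt : t c.castSucc < t c.succ := ht (Fin.castSucc_lt_succ)
    have hcont : ContinuousOn (fun x => q.eval x) (Set.Icc (t c.castSucc) (t c.succ)) :=
      q.continuous.continuousOn
    rcases mul_neg_iff.mp (hD c hc) with ⟨h1, h2⟩ | ⟨h1, h2⟩
    · obtain ⟨r, hr, hr0⟩ := intermediate_value_Ioo' hlt.le hcont ⟨h2, h1⟩
      exact ⟨r, hr.1, hr.2, hr0⟩
    · obtain ⟨r, hr, hr0⟩ := intermediate_value_Ioo hlt.le hcont ⟨h1, h2⟩
      exact ⟨r, hr.1, hr.2, hr0⟩
  choose! r hr1 hr2 hr3 using hr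
  have hinj : Set.InjOn r (D : Set (Fin n)) := by
    have key : ∀ a ∈ D, ∀ b ∈ D, a < b → r a < r b := by
      intro a ha b hb hab
      have h1 := hr2 a ha
      have h2 := hr1 b hb
      have h3 : t a.succ ≤ t b.castSucc := by
        apply ht.monotone
        rw [Fin.le_def]
        simp only [Fin.val_succ, Fin.val_castSucc]
        exact hab
      linarith
    intro a ha b hb hab
    rcases lt_trichotomy a b with h | h | h
    · exact absurd hab (key a ha b hb h).ne
    · exact h
    · exact absurd hab (key b hb a ha h).ne'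
  have h1 : (D.image r) ⊆ q.roots.toFinset := by
    intro x hx
    obtain ⟨c, hc, rfl⟩ := Finset.mem_image.mp hx
    rw [Multiset.mem_toFinset, mem_roots hq0]
    exact hr3 c hc
  calc D.card = (D.image r).card := (Finset.card_image_of_injOn hinj).symm
    _ ≤ q.roots.toFinset.card := Finset.card_le_card h1
    _ ≤ Multiset.card q.roots := Multiset.toFinset_card_le _
    _ ≤ q.natDegree := card_roots' q
    _ ≤ d := hq

theorem sgn_mul_self {s : ℕ} (T : Finset (Fin s)) (i : Fin s) : sgn T i * sgn T i = 1 := by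
  unfold sgn
  split_ifs <;> norm_num

theorem sep_imp (m d : ℕ) (T : Finset (Fin (m + 1)))
    (h : Sep (lift (mom (m + 1) d)) univ T) : (chg T).card ≤ d := by
  obtain ⟨f, hf⟩ := h
  obtain ⟨q, hq, hfq⟩ := exists_poly (m + 1) d f
  have hq0 : q ≠ 0 := by
    rintro rfl
    have := hf 0 (mem_univ _)
    rw [hfq] at this
    simp at this
  refine roots_lemma q hq hq0 (fun i : Fin (m + 1) => ((i : ℕ) : ℝ)) ?_ (chg T) ?_
  · intro a b hab
    show ((a : ℕ) : ℝ) < ((b : ℕ) : ℝ)
    exact_mod_cast hab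
  · intro c hc
    have h1 := hf c.castSucc (mem_univ _)
    have h2 := hf c.succ (mem_univ _)
    rw [hfq] at h1 h2
    simp only [chg, mem_filter, mem_univ, true_and] at hc
    unfold sgn at h1 h2
    by_cases ha : c.castSucc ∈ T
    · have hb : c.succ ∉ T := fun hb => hc ⟨fun _ => hb, fun _ => ha⟩
      rw [if_pos ha] at h1
      rw [if_neg hb] at h2
      nlinarith
    · have hb : c.succ ∈ T := by
        by_contra hb
        exact hc ⟨fun h => absurd h ha, fun h => absurd h hb⟩
      rw [if_neg ha] at h1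
      rw [if_pos hb] at h2
      nlinarith

theorem imp_sep (m d : ℕ) (T : Finset (Fin (m + 1))) (h : (chg T).card ≤ d) :
    Sep (lift (mom (m + 1) d)) univ T := by
  let q : ℝ[X] := C (sgn T 0) * ∏ c ∈ chg T, (C (((c : ℕ) : ℝ) + 1 / 2) - X)
  have hq : q.natDegree ≤ d := by
    refine (natDegree_C_mul_le _ _).trans ?_
    refine (natDegree_prod_le _ _).trans ?_
    refine (Finset.sum_le_card_nsmul _ _ 1 ?_).trans (by simpa using h)
    intro c _
    refine (natDegree_sub_le _ _).trans ?_
    simp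
  have hqe : ∀ x : ℝ, q.eval x = sgn T 0 * ∏ c ∈ chg T, (((c : ℕ) : ℝ) + 1 / 2 - x) := by
    intro x
    simp [q, eval_prod]
  refine ⟨F d q, ?_⟩
  intro j _
  rw [F_mom (m + 1) d q hq]
  -- induction on the value of j
  have key : ∀ n : ℕ, ∀ hn : n < m + 1, 0 < sgn T ⟨n, hn⟩ * q.eval (n : ℝ) := by
    intro n
    induction n with
    | zero =>
      intro hn
      rw [hqe]
      have h0 : (⟨0, hn⟩ : Fin (m + 1)) = 0 := rfl
      rw [h0, ← mul_assoc, sgn_mul_self, one_mul]
      apply Finset.prod_pos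
      intro c _
      have : (0 : ℝ) ≤ ((c : ℕ) : ℝ) := Nat.cast_nonneg _
      push_cast
      linarith
    | succ n ih =>
      intro hn
      have h1 := ih (by omega)
      have hn' : n < m := by omega
      -- product of the values
      have h2 : 0 < (sgn T ⟨n, by omega⟩ * sgn T ⟨n + 1, hn⟩) *
          ∏ c ∈ chg T, ((((c : ℕ) : ℝ) + 1 / 2 - n) * (((c : ℕ) : ℝ) + 1 / 2 - ((n + 1 : ℕ) : ℝ))) := by
        have hother : ∀ c ∈ chg T, (c : ℕ) ≠ n →
            0 < (((c : ℕ) : ℝ) + 1 / 2 - n) * (((c : ℕ) : ℝ) + 1 / 2 - ((n + 1 : ℕ) : ℝ)) := by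
          intro c _ hc
          rcases lt_or_gt_of_ne hc with h | h
          · have : ((c : ℕ) : ℝ) + 1 ≤ (n : ℝ) := by exact_mod_cast h
            push_cast
            apply mul_pos_of_neg_of_neg <;> linarith
          · have : (n : ℝ) + 1 ≤ ((c : ℕ) : ℝ) := by exact_mod_cast h
            push_cast
            apply mul_pos <;> linarith
        by_cases hc : (⟨n, hn'⟩ : Fin m) ∈ chg T
        · have hs : sgn T ⟨n, by omega⟩ * sgn T ⟨n + 1, hn⟩ = -1 := by
            have hc' := hc
            simp only [chg, mem_filter, mem_univ, true_and] at hc'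
            have e1 : (⟨n, hn'⟩ : Fin m).castSucc = (⟨n, by omega⟩ : Fin (m + 1)) := rfl
            have e2 : (⟨n, hn'⟩ : Fin m).succ = (⟨n + 1, hn⟩ : Fin (m + 1)) := rfl
            rw [e1, e2] at hc'
            unfold sgn
            by_cases ha : (⟨n, by omega⟩ : Fin (m + 1)) ∈ T
            · have hb : (⟨n + 1, hn⟩ : Fin (m + 1)) ∉ T := fun hb => hc' ⟨fun _ => hb, fun _ => ha⟩
              rw [if_pos ha, if_neg hb]; norm_num
            · have hb : (⟨n + 1, hn⟩ : Fin (m + 1)) ∈ T := by
                by_contra hb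
                exact hc' ⟨fun h => absurd h ha, fun h => absurd h hb⟩
              rw [if_neg ha, if_pos hb]; norm_num
          rw [hs, ← Finset.mul_prod_erase _ _ hc]
          have h3 : 0 < ∏ c ∈ (chg T).erase ⟨n, hn'⟩,
              ((((c : ℕ) : ℝ) + 1 / 2 - n) * (((c : ℕ) : ℝ) + 1 / 2 - ((n + 1 : ℕ) : ℝ))) := by
            apply Finset.prod_pos
            intro c hc2
            rw [Finset.mem_erase] at hc2
            apply hother c hc2.2
            intro h
            exact hc2.1 (Fin.ext h)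
          have h4 : (((((⟨n, hn'⟩ : Fin m) : ℕ) : ℝ) + 1 / 2 - n) *
            (((((⟨n, hn'⟩ : Fin m) : ℕ) : ℝ)) + 1 / 2 - ((n + 1 : ℕ) : ℝ))) = -(1 / 4) := by
            push_cast
            ring
          rw [h4]
          nlinarith
        · have hs : sgn T ⟨n, by omega⟩ * sgn T ⟨n + 1, hn⟩ = 1 := by
            have hc' := hc
            simp only [chg, mem_filter, mem_univ, true_and, not_not] at hc'
            have e1 : (⟨n, hn'⟩ : Fin m).castSucc = (⟨n, by omega⟩ : Fin (m + 1)) := rfl
            have e2 : (⟨n, hn'⟩ : Fin m).succ = (⟨n + 1, hn⟩ : Fin (m + 1)) := rfl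
            rw [e1, e2] at hc'
            unfold sgn
            by_cases ha : (⟨n, by omega⟩ : Fin (m + 1)) ∈ T
            · rw [if_pos ha, if_pos (hc'.mp ha)]; norm_num
            · rw [if_neg ha, if_neg (fun h => ha (hc'.mpr h))]; norm_num
          rw [hs, one_mul]
          apply Finset.prod_pos
          intro c hc2
          apply hother c hc2
          intro h
          apply hc
          have : c = ⟨n, hn'⟩ := Fin.ext h
          rw [← this]; exact hc2
      rw [Finset.prod_mul_distrib] at h2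
      have h5 : (sgn T ⟨n, by omega⟩ * q.eval (n : ℝ)) *
          (sgn T ⟨n + 1, hn⟩ * q.eval ((n + 1 : ℕ) : ℝ)) =
          (sgn T 0 * sgn T 0) * ((sgn T ⟨n, by omega⟩ * sgn T ⟨n + 1, hn⟩) *
          ((∏ c ∈ chg T, (((c : ℕ) : ℝ) + 1 / 2 - n)) *
            ∏ c ∈ chg T, (((c : ℕ) : ℝ) + 1 / 2 - ((n + 1 : ℕ) : ℝ)))) := by
        rw [hqe, hqe]
        ring
      rw [sgn_mul_self, one_mul] at h5
      rw [← h5] at h2
      exact (pos_iff_pos_of_mul_pos h2).mp h1
  exact key j.1 j.2

theorem card_lt_rank {s k : ℕ} (J : Finset (Fin s)) (h : J.card = k) (c : Fin k) :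
    (J.filter (fun j => j < J.orderEmbOfFin h c)).card = (c : ℕ) := by
  have h1 : J.filter (fun j => j < J.orderEmbOfFin h c) =
      (Finset.Iio c).map (J.orderEmbOfFin h).toEmbedding := by
    ext x
    simp only [mem_filter, Finset.mem_map, Finset.mem_Iio, RelEmbedding.coe_toEmbedding]
    constructor
    · rintro ⟨hx, hlt⟩
      have : x ∈ Set.range (J.orderEmbOfFin h) := by
        rw [Finset.range_orderEmbOfFin]; exact hx
      obtain ⟨b, rfl⟩ := this
      exact ⟨b, by simpa using hlt, rfl⟩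
    · rintro ⟨b, hb, rfl⟩
      exact ⟨Finset.orderEmbOfFin_mem J h b, by simpa using hb⟩
  rw [h1, Finset.card_map, Fin.card_Iio]

theorem alt_nonsep (s d : ℕ) (J : Finset (Fin s)) (hJ : J.card = d + 2) (T : Finset (Fin s))
    (hT : ∀ c : Fin (d + 1), sgn T (J.orderEmbOfFin hJ c.castSucc) *
      sgn T (J.orderEmbOfFin hJ c.succ) = -1) : ¬ Sep (lift (mom s d)) J T := by
  rintro ⟨f, hf⟩
  obtain ⟨q, hq, hfq⟩ := exists_poly s d f
  have hmem : ∀ c, J.orderEmbOfFin hJ c ∈ J := fun c => Finset.orderEmbOfFin_mem J hJ c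
  have hq0 : q ≠ 0 := by
    rintro rfl
    have := hf _ (hmem 0)
    rw [hfq] at this
    simp at this
  have h1 := roots_lemma q hq hq0
    (fun c : Fin (d + 1 + 1) => (((J.orderEmbOfFin hJ c : Fin s) : ℕ) : ℝ)) ?_ univ ?_
  · simp at h1
  · intro a b hab
    have : J.orderEmbOfFin hJ a < J.orderEmbOfFin hJ b := (J.orderEmbOfFin hJ).strictMono hab
    show (((J.orderEmbOfFin hJ a : Fin s) : ℕ) : ℝ) < (((J.orderEmbOfFin hJ b : Fin s) : ℕ) : ℝ)
    exact_mod_cast this
  · intro c _
    have h1 := hf _ (hmem c.castSucc)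
    have h2 := hf _ (hmem c.succ)
    rw [hfq] at h1 h2
    have h3 := hT c
    have h4 := mul_pos h1 h2
    have h5 : sgn T (J.orderEmbOfFin hJ c.castSucc) *
        q.eval (((J.orderEmbOfFin hJ c.castSucc : Fin s) : ℕ) : ℝ) *
        (sgn T (J.orderEmbOfFin hJ c.succ) *
        q.eval (((J.orderEmbOfFin hJ c.succ : Fin s) : ℕ) : ℝ)) =
        (sgn T (J.orderEmbOfFin hJ c.castSucc) * sgn T (J.orderEmbOfFin hJ c.succ)) *
        (q.eval (((J.orderEmbOfFin hJ c.castSucc : Fin s) : ℕ) : ℝ) *
        q.eval (((J.orderEmbOfFin hJ c.succ : Fin s) : ℕ) : ℝ)) := by ring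
    rw [h5, h3] at h4
    linarith

theorem circ_mom (hC : S_CIRC) (s d : ℕ) (J : Finset (Fin s)) (hJ : J.card = d + 2) :
    NS (lift (mom s d)) J =
    {J.filter (fun i => Even (J.filter (fun j => j < i)).card),
      J.filter (fun i => ¬ Even (J.filter (fun j => j < i)).card)} := by
  obtain ⟨x, -, -, -, -, hNS⟩ := hC s d (lift (mom s d)) J hJ (fun A _ hA => gen_mom s d A hA)
  symm
  apply Finset.eq_of_subset_of_card_le
  · have hcases : ∀ c : Fin (d + 1),
        (Even (J.filter (fun j => j < J.orderEmbOfFin hJ c.castSucc)).card ↔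
          ¬ Even (J.filter (fun j => j < J.orderEmbOfFin hJ c.succ)).card) := by
      intro c
      rw [card_lt_rank, card_lt_rank]
      simp only [Fin.val_castSucc, Fin.val_succ]
      rw [Nat.even_add_one, not_not]
    intro T hT
    rw [Finset.mem_insert, Finset.mem_singleton] at hT
    rw [NS, mem_filter, mem_powerset]
    rcases hT with rfl | rfl
    · refine ⟨Finset.filter_subset _ _, ?_⟩
      apply alt_nonsep s d J hJ
      intro c
      unfold sgn
      simp only [mem_filter, Finset.orderEmbOfFin_mem, true_and]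
      by_cases h : Even (J.filter (fun j => j < J.orderEmbOfFin hJ c.castSucc)).card
      · rw [if_pos h, if_neg ((hcases c).mp h)]; norm_num
      · have h' : Even (J.filter (fun j => j < J.orderEmbOfFin hJ c.succ)).card := by
          by_contra h'
          exact h ((hcases c).mpr h')
        rw [if_neg h, if_pos h']; norm_num
    · refine ⟨Finset.filter_subset _ _, ?_⟩
      apply alt_nonsep s d J hJ
      intro c
      unfold sgn
      simp only [mem_filter, Finset.orderEmbOfFin_mem, true_and]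
      by_cases h : Even (J.filter (fun j => j < J.orderEmbOfFin hJ c.castSucc)).card
      · rw [if_neg (not_not.mpr h), if_pos ((hcases c).mp h)]; norm_num
      · have h' : Even (J.filter (fun j => j < J.orderEmbOfFin hJ c.succ)).card := by
          by_contra h'
          exact h ((hcases c).mpr h')
        rw [if_pos h, if_neg (not_not.mpr h')]; norm_num
  · rw [hNS]
    have hne : J.filter (fun i => Even (J.filter (fun j => j < i)).card) ≠
        J.filter (fun i => ¬ Even (J.filter (fun j => j < i)).card) := by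
      intro he
      have h0 := Finset.orderEmbOfFin_mem J hJ 0
      by_cases h : Even (J.filter (fun j => j < J.orderEmbOfFin hJ 0)).card
      · have h1 : J.orderEmbOfFin hJ 0 ∈
            J.filter (fun i => Even (J.filter (fun j => j < i)).card) := mem_filter.mpr ⟨h0, h⟩
        rw [he, mem_filter] at h1
        exact h1.2 h
      · have h1 : J.orderEmbOfFin hJ 0 ∈
            J.filter (fun i => ¬ Even (J.filter (fun j => j < i)).card) := mem_filter.mpr ⟨h0, h⟩
        rw [← he, mem_filter] at h1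
        exact h h1.2
    rw [Finset.card_pair hne]
    exact Finset.card_le_two

end MOMP

theorem p_MOM : S_MOM := fun hC =>
  ⟨MOMP.gen_mom, fun m d T => ⟨MOMP.sep_imp m d T, MOMP.imp_sep m d T⟩,
    fun s d J hJ => MOMP.circ_mom hC s d J hJ⟩

end Pool.Agent.Run7.h62.RV
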